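import Mathlib
import Pool.Agent.Helper1.NoPrime

set_option autoImplicit false

namespace Pool.Agent.Results.MP_31a5b6_al.NoPrimes

open Pool.Agent.Helper1.NoPrime

/-- There are a chain `T` with more than two elements and a subgroup `L` of the group `T ≃o T` of
order automorphisms of `T` (product = composition), closed under pointwise maxima and minima,
2-transitive, all of whose elements have bounded support, and such that every `f ∈ L` with
`f ≥ e`, `f ≠ e` is the join of two disjoint elements of `L` different from `e`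
(so `L` has no l-prime `f > e`). -/
theorem result :
    ∃ (T : Type) (_ : LinearOrder T) (L : Subgroup (T ≃o T)),
      (∃ a b c : T, a < b ∧ b < c) ∧
      (∀ f ∈ L, ∀ g ∈ L, ∃ h ∈ L, ∀ t, h t = max (f t) (g t)) ∧
      (∀ f ∈ L, ∀ g ∈ L, ∃ h ∈ L, ∀ t, h t = min (f t) (g t)) ∧
      (∀ r₁ r₂ s₁ s₂ : T, r₁ < r₂ → s₁ < s₂ → ∃ f ∈ L, f r₁ = s₁ ∧ f r₂ = s₂) ∧
      (∀ f ∈ L, ∃ t₁ t₂ : T, (∀ s, s < t₁ → f s = s) ∧ ∀ s, t₂ < s → f s = s) ∧
      (∀ f ∈ L, (∀ t, t ≤ f t) → f ≠ 1 →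
        ∃ f₁ ∈ L, ∃ f₂ ∈ L, f₁ ≠ 1 ∧ f₂ ≠ 1 ∧
          (∀ t, min (f₁ t) (f₂ t) = t) ∧ ∀ t, max (f₁ t) (f₂ t) = f t) :=
  ⟨Hyperreal, inferInstance, L sat_hyper, ⟨0, 1, 2, zero_lt_one, one_lt_two⟩,
    fun f hf g hg => ⟨omax f g, omax_mem hf hg, fun _ => rfl⟩,
    fun f hf g hg => ⟨omin f g, omin_mem hf hg, fun _ => rfl⟩,
    fun r₁ r₂ s₁ s₂ hr hs => two_trans sat_hyper r₁ r₂ s₁ s₂ hr hs,
    fun _ hf => hf.2,
    fun _ hf hpos hne => decomp sat_hyper hf hpos hne⟩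

end Pool.Agent.Results.MP_31a5b6_al.NoPrimes
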